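import Pool.Agent.Helper17.DF.Fast

set_option autoImplicit false

/-! Module DF-4: the table check `okBR` and the values `valsL` cover the candidate list. -/

namespace Pool.Agent.Helper17.CT

private theorem df4_or (x y : Bool) : orR x y = (x || y) := by
  cases x <;> rfl

private theorem df4_and (x y : Bool) : andR x y = (x && y) := by
  cases x <;> rfl

private theorem df4_orb (e : Bool) (m b x0 U f : ℕ) : ∀ x acc : ℕ,
    orbR e m b x0 U f x acc = (match orb m b x0 f x acc with
      | none => e
      | some r => Nat.beq r U) := by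
  induction f with
  | zero => intro x acc; rfl
  | succ f ih =>
    intro x acc
    have h1 : orbR e m b x0 U (f + 1) x acc =
        Bool.rec (orbR e m b x0 U f (d4 b (d4 m x))
          (Nat.lor (Nat.lor acc (Nat.shiftLeft 1 x)) (Nat.shiftLeft 1 (d4 m x))))
        (Nat.beq (Nat.lor (Nat.lor acc (Nat.shiftLeft 1 x)) (Nat.shiftLeft 1 (d4 m x))) U)
        (Nat.beq (d4 b (d4 m x)) x0) := rfl
    have h2 : orb m b x0 (f + 1) x acc =
        cond (Nat.beq (d4 b (d4 m x)) x0)
          (some (Nat.lor (Nat.lor acc (Nat.shiftLeft 1 x)) (Nat.shiftLeft 1 (d4 m x))))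
          (orb m b x0 f (d4 b (d4 m x))
            (Nat.lor (Nat.lor acc (Nat.shiftLeft 1 x)) (Nat.shiftLeft 1 (d4 m x)))) := rfl
    rw [h1, h2]
    cases Nat.beq (d4 b (d4 m x)) x0 with
    | true => rfl
    | false => exact ih _ _

private theorem df4_singT (k m b U : ℕ) : singR true k m b U = sing k m b U :=
  df4_orb true m b (Nat.log2 U) U k (Nat.log2 U) 0

private theorem df4_singF (k m b U : ℕ) : singR false k m b U = sing' k m b U :=
  df4_orb false m b (Nat.log2 U) U k (Nat.log2 U) 0

private theorem df4_dupL (k T U b : ℕ) (l : List Sy) :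
    dupR k T U b l = anyL (fun s => and (and (Nat.beq s.U U) (not (Nat.beq s.T T)))
      (sing' k s.m b U)) l := by
  induction l with
  | nil => rfl
  | cons s l ih =>
    have h1 : dupR k T U b (s :: l) =
      orR (andR (andR (Nat.beq s.U U) (not (Nat.beq s.T T))) (singR false k s.m b U))
        (dupR k T U b l) := rfl
    rw [h1, df4_or, df4_and, df4_and, df4_singF, ih]
    rfl

private theorem df4_dup (F : Code) (S : Tri') (T U b : ℕ) :
    dupR F.k T U b (S.get U 0) = dup F S T U b :=
  df4_dupL F.k T U b (S.get U 0)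

/-! ### unfolding lemmas -/

private theorem df4_v_nil (F : Code) (G p : ℕ) (st : List ℕ) (T : TT) (K : List ℕ → Bool)
    (acc : List ℕ) : valsL F G .nil p st T K acc = K acc := rfl

private theorem df4_v_node (F : Code) (G : ℕ) (u o c : BT) (p : ℕ) (st : List ℕ) (T : TT)
    (K : List ℕ → Bool) (acc : List ℕ) :
    valsL F G (.node u o c) p st T K acc =
      valsL F G u (Nat.succ p) st T.u (fun acc => valsL F G o (Nat.succ p) (p :: st) T.o
        (fun acc => List.rec (K acc) (fun q st' _ => valsL F G c (Nat.succ p) st'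
          (Bool.rec T.d T.s (Nat.beq (d2 G (d6 F.Q p)) (d2 G (d6 F.Q q)))) K acc) st) acc) acc :=
  rfl

/-- the continuation is called for an extended list -/
private theorem df4_V (F : Code) (G : ℕ) (C : BT) : ∀ (p : ℕ) (st : List ℕ) (T : TT)
    (K : List ℕ → Bool) (acc : List ℕ), valsL F G C p st T K acc = true →
    ∃ acc', (∀ w ∈ acc, w ∈ acc') ∧ K acc' = true := by
  induction C with
  | nil => intro p st T K acc h; exact ⟨acc, fun w hw => hw, h⟩
  | leaf =>
    intro p st T K acc h
    cases T with
    | nil => exact absurd h (by simp [valsL])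
    | leaf w =>
      exact ⟨w :: acc, fun v hv => List.mem_cons_of_mem _ hv, h⟩
    | node a b c d => exact absurd h (by simp [valsL])
  | node u o c ihu iho ihc =>
    intro p st T K acc h
    rw [df4_v_node] at h
    obtain ⟨a1, h1, h1'⟩ := ihu _ _ _ _ _ h
    obtain ⟨a2, h2, h2'⟩ := iho _ _ _ _ _ h1'
    cases st with
    | nil => exact ⟨a2, fun w hw => h2 w (h1 w hw), h2'⟩
    | cons q st' =>
      obtain ⟨a3, h3, h3'⟩ := ihc _ _ _ _ _ h2'
      exact ⟨a3, fun w hw => h3 w (h2 w (h1 w hw)), h3'⟩

private theorem df4_b_zero (k : ℕ) (SU : List Sy) (T U m p : ℕ) (st : List ℕ) (h r B : ℕ)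
    (C : BT) : okBR k SU T U m 0 p st h r B C =
      orR C.isLeaf (orR (not (singR true k m B U)) (dupR k T U B SU)) := rfl

private theorem df4_b_succ (k : ℕ) (SU : List Sy) (T U m f p : ℕ) (st : List ℕ) (h r B : ℕ)
    (C : BT) : okBR k SU T U m (f + 1) p st h r B C =
      Bool.rec
        (okBR k SU T U m f (Nat.succ p) st h r (Nat.lor B (Nat.shiftLeft p (Nat.mul 4 p))) C.u)
        (andR (Bool.rec true
            (okBR k SU T U m f (Nat.succ p) (p :: st) (Nat.succ h) (Nat.pred r) B C.o)
            (Nat.ble (Nat.succ h) (Nat.pred r)))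
          (List.rec true (fun q st' _ =>
             okBR k SU T U m f (Nat.succ p) st' (Nat.pred h) (Nat.pred r)
               (Nat.lor B (Nat.lor (Nat.shiftLeft p (Nat.mul 4 q))
                  (Nat.shiftLeft q (Nat.mul 4 p)))) C.c) st))
        (tb U p) := rfl

private theorem df4_c_zero (F : Code) (S : Tri') (G Tm U m p : ℕ) (st : List ℕ) (r B : ℕ)
    (T : TT) : cands F S G Tm U m 0 p st r B T =
      cond (sing F.k m B U) (cond (dup F S Tm U B) (some [])
        (match T with
          | .leaf w => some [w]
          | _ => none)) (some []) := rfl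

private theorem df4_c_succ (F : Code) (S : Tri') (G Tm U m f p : ℕ) (st : List ℕ) (r B : ℕ)
    (T : TT) : cands F S G Tm U m (f + 1) p st r B T =
      cond (tb U p)
        (match (cond (Nat.ble (Nat.succ st.length) (Nat.pred r))
              (cands F S G Tm U m f (Nat.succ p) (p :: st) (Nat.pred r) B T.o) (some [])) with
          | none => none
          | some l1 =>
            match st with
            | [] => some l1
            | q :: st' =>
              match (cands F S G Tm U m f (Nat.succ p) st' (Nat.pred r)
                    (Nat.lor B (Nat.lor (Nat.shiftLeft p (Nat.mul 4 q))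
                      (Nat.shiftLeft q (Nat.mul 4 p))))
                    (cond (Nat.beq (d2 G (d6 F.Q p)) (d2 G (d6 F.Q q))) T.s T.d)) with
              | none => none
              | some l2 => some (l1 ++ l2))
        (cands F S G Tm U m f (Nat.succ p) st r
          (Nat.lor B (Nat.shiftLeft p (Nat.mul 4 p))) T.u) := rfl

/-- at the end, if the trie has no leaf then there is no candidate -/
private theorem df4_zero (F : Code) (S : Tri') (G Tm U m p : ℕ) (st : List ℕ) (h r B : ℕ)
    (C : BT) (T : TT) (hC : C.isLeaf = false)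
    (hb : okBR F.k (S.get U 0) Tm U m 0 p st h r B C = true) :
    cands F S G Tm U m 0 p st r B T = some [] := by
  rw [df4_b_zero, hC, df4_or, df4_or, df4_singT, df4_dup] at hb
  rw [df4_c_zero]
  cases h1 : sing F.k m B U with
  | false => rfl
  | true =>
    rw [h1] at hb
    cases h2 : dup F S Tm U B with
    | true => rfl
    | false => rw [h2] at hb; exact absurd hb (by simp)

/-- an empty trie: there are no candidates -/
private theorem df4_N (F : Code) (S : Tri') (G Tm U m f : ℕ) : ∀ (p : ℕ) (st : List ℕ)
    (r B : ℕ) (T : TT),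
    okBR F.k (S.get U 0) Tm U m f p st st.length r B .nil = true →
    cands F S G Tm U m f p st r B T = some [] := by
  induction f with
  | zero => intro p st r B T hb; exact df4_zero F S G Tm U m p st _ r B _ T rfl hb
  | succ f ih =>
    intro p st r B T hb
    rw [df4_b_succ] at hb
    rw [df4_c_succ]
    cases hp : tb U p with
    | false =>
      rw [hp] at hb
      exact ih _ _ _ _ _ hb
    | true =>
      rw [hp] at hb
      replace hb : andR (Bool.rec true
            (okBR F.k (S.get U 0) Tm U m f (Nat.succ p) (p :: st) (Nat.succ st.length)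
              (Nat.pred r) B .nil)
            (Nat.ble (Nat.succ st.length) (Nat.pred r)))
          (List.rec true (fun q st' _ =>
             okBR F.k (S.get U 0) Tm U m f (Nat.succ p) st' (Nat.pred st.length) (Nat.pred r)
               (Nat.lor B (Nat.lor (Nat.shiftLeft p (Nat.mul 4 q))
                  (Nat.shiftLeft q (Nat.mul 4 p)))) .nil) st) = true := hb
      rw [df4_and, Bool.and_eq_true] at hb
      obtain ⟨hb1, hb2⟩ := hb
      have h1 : (cond (Nat.ble (Nat.succ st.length) (Nat.pred r))
              (cands F S G Tm U m f (Nat.succ p) (p :: st) (Nat.pred r) B T.o) (some []))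
              = some [] := by
        cases hl : Nat.ble (Nat.succ st.length) (Nat.pred r) with
        | false => rfl
        | true =>
          rw [hl] at hb1
          exact ih _ _ _ _ _ hb1
      rw [h1]
      cases st with
      | nil => rfl
      | cons q st' =>
        have h2 := ih _ _ _ _ (cond (Nat.beq (d2 G (d6 F.Q p)) (d2 G (d6 F.Q q))) T.s T.d) hb2
        simp only [cond_true]
        rw [h2]
        rfl

/-- the main induction -/
private theorem df4_M (F : Code) (S : Tri') (G Tm U m f : ℕ) : ∀ (p : ℕ) (st : List ℕ)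
    (r B : ℕ) (C : BT) (T : TT) (K : List ℕ → Bool) (acc : List ℕ),
    okBR F.k (S.get U 0) Tm U m f p st st.length r B C = true →
    valsL F G C p st T K acc = true →
    ∃ l acc', cands F S G Tm U m f p st r B T = some l ∧ (∀ w ∈ l, w ∈ acc') ∧
      (∀ w ∈ acc, w ∈ acc') ∧ K acc' = true := by
  induction f with
  | zero =>
    intro p st r B C T K acc hb hK
    cases C with
    | nil =>
      exact ⟨[], acc, df4_zero F S G Tm U m p st _ r B _ T rfl hb, by simp, fun w hw => hw, hK⟩
    | leaf =>
      cases T with
      | nil => exact absurd hK (by simp [valsL])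
      | node a b c d => exact absurd hK (by simp [valsL])
      | leaf w =>
        rw [df4_c_zero]
        cases sing F.k m B U with
        | false => exact ⟨[], w :: acc, rfl, by simp, fun v hv => List.mem_cons_of_mem _ hv, hK⟩
        | true =>
          cases dup F S Tm U B with
          | true => exact ⟨[], w :: acc, rfl, by simp, fun v hv => List.mem_cons_of_mem _ hv, hK⟩
          | false =>
            exact ⟨[w], w :: acc, rfl, by simp, fun v hv => List.mem_cons_of_mem _ hv, hK⟩
    | node u o c =>
      obtain ⟨acc', h1, h2⟩ := df4_V F G _ _ _ _ _ _ hK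
      exact ⟨[], acc', df4_zero F S G Tm U m p st _ r B _ T rfl hb, by simp, h1, h2⟩
  | succ f ih =>
    intro p st r B C T K acc hb hK
    cases C with
    | nil =>
      exact ⟨[], acc, df4_N F S G Tm U m (f + 1) p st r B T hb, by simp, fun w hw => hw, hK⟩
    | leaf =>
      obtain ⟨acc', h1, h2⟩ := df4_V F G _ _ _ _ _ _ hK
      exact ⟨[], acc', df4_N F S G Tm U m (f + 1) p st r B T hb, by simp, h1, h2⟩
    | node u o c =>
      rw [df4_b_succ] at hb
      rw [df4_v_node] at hK
      rw [df4_c_succ]
      cases hp : tb U p with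
      | false =>
        rw [hp] at hb
        obtain ⟨l, a1, e1, g1, s1, hK1⟩ := ih _ _ _ _ _ _ _ _ hb hK
        obtain ⟨a2, s2, hK2⟩ := df4_V F G _ _ _ _ _ _ hK1
        cases st with
        | nil =>
          exact ⟨l, a2, e1, fun w hw => s2 w (g1 w hw), fun w hw => s2 w (s1 w hw), hK2⟩
        | cons q st' =>
          obtain ⟨a3, s3, hK3⟩ := df4_V F G _ _ _ _ _ _ hK2
          exact ⟨l, a3, e1, fun w hw => s3 w (s2 w (g1 w hw)),
            fun w hw => s3 w (s2 w (s1 w hw)), hK3⟩
      | true =>
        rw [hp] at hb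
        replace hb : andR (Bool.rec true
              (okBR F.k (S.get U 0) Tm U m f (Nat.succ p) (p :: st) (Nat.succ st.length)
                (Nat.pred r) B o)
              (Nat.ble (Nat.succ st.length) (Nat.pred r)))
            (List.rec true (fun q st' _ =>
               okBR F.k (S.get U 0) Tm U m f (Nat.succ p) st' (Nat.pred st.length) (Nat.pred r)
                 (Nat.lor B (Nat.lor (Nat.shiftLeft p (Nat.mul 4 q))
                    (Nat.shiftLeft q (Nat.mul 4 p)))) c) st) = true := hb
        rw [df4_and, Bool.and_eq_true] at hb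
        obtain ⟨hb1, hb2⟩ := hb
        obtain ⟨a1, s1, hK1⟩ := df4_V F G _ _ _ _ _ _ hK
        have h1 : ∃ l1 a2, (cond (Nat.ble (Nat.succ st.length) (Nat.pred r))
              (cands F S G Tm U m f (Nat.succ p) (p :: st) (Nat.pred r) B T.o) (some []))
              = some l1 ∧ (∀ w ∈ l1, w ∈ a2) ∧ (∀ w ∈ a1, w ∈ a2) ∧
              (List.rec (K a2) (fun q st' _ => valsL F G c (Nat.succ p) st'
          (Bool.rec T.d T.s (Nat.beq (d2 G (d6 F.Q p)) (d2 G (d6 F.Q q)))) K a2) st : Bool)
              = true := by
          cases hl : Nat.ble (Nat.succ st.length) (Nat.pred r) with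
          | false =>
            obtain ⟨a2, s2, hK2⟩ := df4_V F G _ _ _ _ _ _ hK1
            exact ⟨[], a2, rfl, by simp, s2, hK2⟩
          | true =>
            rw [hl] at hb1
            obtain ⟨l1, a2, e2, g2, s2, hK2⟩ := ih _ _ _ _ _ _ _ _ hb1 hK1
            exact ⟨l1, a2, e2, g2, s2, hK2⟩
        obtain ⟨l1, a2, e2, g2, s2, hK2⟩ := h1
        rw [e2]
        cases st with
        | nil =>
          exact ⟨l1, a2, rfl, g2, fun w hw => s2 w (s1 w hw), hK2⟩
        | cons q st' =>
          have hc : (cond (Nat.beq (d2 G (d6 F.Q p)) (d2 G (d6 F.Q q))) T.s T.d) =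
              (Bool.rec T.d T.s (Nat.beq (d2 G (d6 F.Q p)) (d2 G (d6 F.Q q))) : TT) := by
            cases Nat.beq (d2 G (d6 F.Q p)) (d2 G (d6 F.Q q)) <;> rfl
          obtain ⟨l2, a3, e3, g3, s3, hK3⟩ := ih _ _ _ _ _ _ _ _ hb2 hK2
          rw [← hc] at e3
          simp only [cond_true]
          rw [e3]
          refine ⟨l1 ++ l2, a3, rfl, ?_, fun w hw => s3 w (s2 w (s1 w hw)), hK3⟩
          intro w hw
          rcases List.mem_append.1 hw with hw | hw
          · exact s3 w (g2 w hw)
          · exact g3 w hw

/-- DF-4: the candidate list is covered by the list of table values. -/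
theorem cands_of (F : Code) (S : Tri') (G Tm U m r : ℕ) (T : TT) (C : BT)
    (h : okBR F.k (S.get U 0) Tm U m F.k 0 [] 0 r 0 C = true) (K : List ℕ → Bool) (acc : List ℕ)
    (hK : valsL F G C 0 [] T K acc = true) :
    ∃ l acc', cands F S G Tm U m F.k 0 [] r 0 T = some l ∧ (∀ w ∈ l, w ∈ acc') ∧
      K acc' = true := by
  obtain ⟨l, acc', h1, h2, _, h4⟩ := df4_M F S G Tm U m F.k 0 [] r 0 C T K acc h hK
  exact ⟨l, acc', h1, h2, h4⟩

end Pool.Agent.Helper17.CT
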